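import Mathlib
import Pool.Agent.KS6_69.IF.Main

/-!
Adding independent sets whose size is divisible by the number of factors.
-/

set_option autoImplicit false

namespace Pool.Agent.KS6_69.IF

open Finset SimpleGraph

/-- the number of edges -/
noncomputable def ec {V : Type} (G : SimpleGraph V) : ℕ := G.edgeSet.ncard

theorem ec_eq {V : Type} [Fintype V] (G : SimpleGraph V) [DecidableRel G.Adj] :
    ec G = G.edgeFinset.card := by
  unfold ec
  rw [← SimpleGraph.coe_edgeFinset, Set.ncard_coe_finset]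

theorem ec_iso {V W : Type} {G : SimpleGraph V} {G' : SimpleGraph W} (e : G ≃g G') :
    ec G = ec G' := by
  unfold ec
  rw [← Nat.card_coe_set_eq, ← Nat.card_coe_set_eq]
  exact Nat.card_congr e.mapEdgeSet

open Classical in
theorem ec_jn {O Z : Type} [Fintype O] [Fintype Z] (A : SimpleGraph O) :
    ec (jn A (⊥ : SimpleGraph Z) fun _ => True) = ec A + Fintype.card O * Fintype.card Z := by
  rw [ec_eq, ec_eq]
  have h1 := (jn A (⊥ : SimpleGraph Z) fun _ => True).sum_degrees_eq_twice_card_edges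
  have h2 := A.sum_degrees_eq_twice_card_edges
  have d1 : ∀ a : O, (jn A (⊥ : SimpleGraph Z) fun _ => True).degree (Sum.inl a) =
      A.degree a + Fintype.card Z := by
    intro a
    rw [← card_neighborFinset_eq_degree, ← card_neighborFinset_eq_degree]
    have : (jn A (⊥ : SimpleGraph Z) fun _ => True).neighborFinset (Sum.inl a) =
        (A.neighborFinset a).disjSum Finset.univ := by
      ext (b | z)
      · rw [mem_neighborFinset, Finset.inl_mem_disjSum, mem_neighborFinset]
        exact Iff.rfl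
      · rw [mem_neighborFinset, Finset.inr_mem_disjSum]
        exact ⟨fun _ => Finset.mem_univ _, fun _ => trivial⟩
    rw [this, Finset.card_disjSum, Finset.card_univ]
  have d2 : ∀ z : Z, (jn A (⊥ : SimpleGraph Z) fun _ => True).degree (Sum.inr z) =
      Fintype.card O := by
    intro z
    rw [← card_neighborFinset_eq_degree]
    have : (jn A (⊥ : SimpleGraph Z) fun _ => True).neighborFinset (Sum.inr z) =
        (Finset.univ : Finset O).disjSum (∅ : Finset Z) := by
      ext (b | y)
      · rw [mem_neighborFinset, Finset.inl_mem_disjSum]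
        exact ⟨fun _ => Finset.mem_univ _, fun _ => trivial⟩
      · rw [mem_neighborFinset, Finset.inr_mem_disjSum]
        exact ⟨fun h => absurd h (by exact fun h => h.elim),
          fun h => absurd h (Finset.notMem_empty _)⟩
    rw [this, Finset.card_disjSum, Finset.card_univ, Finset.card_empty, add_zero]
  rw [Fintype.sum_sum_type, Finset.sum_congr rfl (fun a _ => d1 a),
    Finset.sum_congr rfl (fun z _ => d2 z), Finset.sum_add_distrib, h2, Finset.sum_const,
    Finset.sum_const, Finset.card_univ, Finset.card_univ, smul_eq_mul, smul_eq_mul] at h1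
  nlinarith

/-- A graph with an independent set `X` all of whose vertices are adjacent to all vertices outside
`X` is a join. -/
theorem join_iso {V : Type} [Fintype V] (G : SimpleGraph V) (X : Set V) (T : ℕ) [NeZero T]
    (hT : X.ncard = T) (hind : ∀ v ∈ X, ∀ w, G.Adj v w ↔ w ∉ X) :
    Nonempty (jn (G.induce Xᶜ) (⊥ : SimpleGraph (ZMod T)) (fun _ => True) ≃g G) := by
  classical
  have hc : Fintype.card X = Fintype.card (ZMod T) := by
    rw [← Nat.card_eq_fintype_card, Nat.card_coe_set_eq, hT, ZMod.card]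
  let f : ZMod T ≃ X := (Fintype.equivOfCardEq hc).symm
  let e : (Xᶜ : Set V) ⊕ ZMod T ≃ V :=
    (Equiv.sumCongr (Equiv.refl _) f).trans ((Equiv.sumComm _ _).trans (Equiv.Set.sumCompl X))
  have e1 : ∀ a : (Xᶜ : Set V), e (Sum.inl a) = a.1 := fun a => rfl
  have e2 : ∀ z : ZMod T, e (Sum.inr z) = (f z).1 := fun z => rfl
  refine ⟨⟨e, ?_⟩⟩
  rintro (a | z) (b | y)
  · rw [e1, e1]
    exact Iff.rfl
  · rw [e1, e2, G.adj_comm, hind _ (f y).2]
    exact ⟨fun _ => trivial, fun _ => a.2⟩
  · rw [e1, e2, hind _ (f z).2]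
    exact ⟨fun _ => trivial, fun _ => b.2⟩
  · rw [e2, e2, hind _ (f z).2]
    exact ⟨fun h => absurd (f y).2 h, fun h => h.elim⟩

theorem induce_all {V : Type} (G : SimpleGraph V) (S : Set V) (hS : ∀ v, v ∈ S) :
    Nonempty (G.induce S ≃g G) :=
  ⟨⟨Equiv.subtypeUnivEquiv hS, Iff.rfl⟩⟩

/-- adding an independent set joined to all other vertices -/
theorem add_indep {V : Type} [Fintype V] (G : SimpleGraph V) (X : Set V) (t : ℕ) [NeZero t]
    (hX : t ∣ X.ncard) (hind : ∀ v ∈ X, ∀ w, G.Adj v w ↔ w ∉ X) :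
    (t ∣ ec G ↔ t ∣ ec (G.induce Xᶜ)) ∧ (Div (G.induce Xᶜ) (ZMod t) → Div G (ZMod t)) := by
  classical
  rcases Nat.eq_zero_or_pos X.ncard with h0 | hpos
  · have hX0 : X = ∅ := (Set.ncard_eq_zero (Set.toFinite X)).1 h0
    obtain ⟨e⟩ := induce_all G Xᶜ (fun v => by rw [hX0]; simp)
    exact ⟨by rw [ec_iso e], fun h => Div.of_iso e h⟩
  · have : NeZero X.ncard := ⟨by omega⟩
    obtain ⟨e⟩ := join_iso G X X.ncard rfl hind
    constructor
    · rw [← ec_iso e, ec_jn, ZMod.card]
      exact (Nat.dvd_add_left (Dvd.dvd.mul_left hX _))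
    · intro h
      refine Div.of_iso e (Div.cyc hX (fun a x y => Iff.rfl) ?_ h)
      intro x y hxy
      exact hxy.elim

/-- removing a finite set of parts -/
theorem add_parts {V P : Type} [Fintype V] [DecidableEq P] (p : V → P) (t : ℕ) [NeZero t]
    (D : Finset P) (hD : ∀ x ∈ D, t ∣ Nat.card {v // p v = x}) :
    (t ∣ ec ((⊤ : SimpleGraph P).comap p) ↔
      t ∣ ec (((⊤ : SimpleGraph P).comap p).induce {v | p v ∉ D})) ∧
    (Div (((⊤ : SimpleGraph P).comap p).induce {v | p v ∉ D}) (ZMod t) →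
      Div ((⊤ : SimpleGraph P).comap p) (ZMod t)) := by
  classical
  induction D using Finset.induction_on with
  | empty =>
    obtain ⟨e⟩ := induce_all ((⊤ : SimpleGraph P).comap p) {v | p v ∉ (∅ : Finset P)}
      (fun v => Finset.notMem_empty _)
    exact ⟨by rw [ec_iso e], fun h => Div.of_iso e h⟩
  | insert x D hx ih =>
    obtain ⟨ih1, ih2⟩ := ih fun y hy => hD y (Finset.mem_insert_of_mem hy)
    set G := (⊤ : SimpleGraph P).comap p with hG
    let X : Set ({v | p v ∉ D} : Set V) := {w | p w.1 = x}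
    have hXc : X.ncard = Nat.card {v // p v = x} := by
      rw [← Nat.card_coe_set_eq]
      refine Nat.card_congr ⟨fun w => ⟨w.1.1, w.2⟩,
        fun v => ⟨⟨v.1, fun h => hx (by rw [← v.2]; exact h)⟩, v.2⟩, ?_, ?_⟩
      · intro w; rfl
      · intro v; rfl
    have hadj : ∀ v w : V, G.Adj v w ↔ p v ≠ p w := fun v w => Iff.rfl
    obtain ⟨a1, a2⟩ := add_indep (G.induce {v | p v ∉ D}) X t
      (by rw [hXc]; exact hD x (Finset.mem_insert_self _ _)) (by
        intro v hv w
        change p v.1 ≠ p w.1 ↔ ¬ (p w.1 = x)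
        have hv' : p v.1 = x := hv
        rw [hv']
        exact ⟨fun h1 h2 => h1 h2.symm, fun h1 h2 => h1 h2.symm⟩)
    have e : (G.induce {v | p v ∉ D}).induce Xᶜ ≃g G.induce {v | p v ∉ insert x D} :=
      { toFun := fun w => ⟨w.1.1, fun h => by
          rcases Finset.mem_insert.1 h with h | h
          · exact w.2 h
          · exact w.1.2 h⟩
        invFun := fun v => ⟨⟨v.1, fun h => v.2 (Finset.mem_insert_of_mem h)⟩,
          fun h => v.2 (Finset.mem_insert.2 (Or.inl h))⟩
        left_inv := fun w => rfl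
        right_inv := fun v => rfl
        map_rel_iff' := Iff.rfl }
    refine ⟨ih1.trans (a1.trans (by rw [ec_iso e])), fun h => ih2 (a2 (Div.of_iso e.symm h))⟩

theorem div_empty {V : Type} [IsEmpty V] (G : SimpleGraph V) (C : Type) : Div G C :=
  ⟨fun _ => ⊥, fun _ v => isEmptyElim v, fun v => isEmptyElim v, fun _ _ => ⟨RelIso.refl _⟩⟩

/-- a complete multipartite graph with parts of size `n` -/
theorem equal_parts {V P : Type} [Fintype V] (p : V → P) (n t : ℕ) [NeZero t]
    (hn : ∀ v, Nat.card {w // p w = p v} = n) (h : t ∣ ec ((⊤ : SimpleGraph P).comap p)) :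
    Div ((⊤ : SimpleGraph P).comap p) (ZMod t) := by
  classical
  rcases isEmpty_or_nonempty V with hV | ⟨⟨v₀⟩⟩
  · exact div_empty _ _
  have hn1 : 1 ≤ n := by
    rw [← hn v₀]
    have : Nonempty {w // p w = p v₀} := ⟨⟨v₀, rfl⟩⟩
    exact Nat.card_pos
  let p' : V → Set.range p := fun v => ⟨p v, v, rfl⟩
  have hfib : ∀ x : Set.range p, Fintype.card {v // p' v = x} = n := by
    rintro ⟨x, v, rfl⟩
    rw [← Nat.card_eq_fintype_card, ← hn v]
    exact Nat.card_congr (Equiv.subtypeEquivRight fun w =>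
      ⟨fun h => congrArg Subtype.val h, fun h => Subtype.ext h⟩)
  have e0 : (⊤ : SimpleGraph P).comap p = (⊤ : SimpleGraph (Set.range p)).comap p' := by
    ext v w
    change p v ≠ p w ↔ p' v ≠ p' w
    exact ⟨fun h1 h2 => h1 (congrArg Subtype.val h2), fun h1 h2 => h1 (Subtype.ext h2)⟩
  obtain ⟨e⟩ := equi_iso (r := Fintype.card (Set.range p)) p' rfl hfib
  rw [e0] at h ⊢
  refine Div.of_iso e (main2 _ n t hn1 (Nat.one_le_iff_ne_zero.2 (NeZero.ne t)) ?_)
  rw [← ec_iso e, ec_eq, card_edgeFinset_completeEquipartiteGraph] at h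
  rwa [mul_comm]

theorem induce_comap {V P : Type} (p : V → P) (S : Set V) :
    ((⊤ : SimpleGraph P).comap p).induce S = (⊤ : SimpleGraph P).comap fun v : S => p v.1 := rfl

end Pool.Agent.KS6_69.IF
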