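import Pool.Agent.KS6_69.IF.Basic

/-!
The exceptional case: stars with a matching of constant size among the leaves.
-/

set_option autoImplicit false

namespace Pool.Agent.KS6_69.IF

open Finset

section sg

variable {V L : Type}

/-- a star with centre `ctr`, together with a graph on some of the leaves -/
def Sg (ctr : V) (leaf : V → Prop) (ι : L ↪ V) (N : SimpleGraph L) (hl : ¬ leaf ctr) :
    SimpleGraph V where
  Adj v w := (v = ctr ∧ leaf w) ∨ (w = ctr ∧ leaf v) ∨ ∃ a b, ι a = v ∧ ι b = w ∧ N.Adj a b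
  symm := ⟨by
    rintro v w (h | h | ⟨a, b, h1, h2, h3⟩)
    · exact Or.inr (Or.inl h)
    · exact Or.inl h
    · exact Or.inr (Or.inr ⟨b, a, h2, h1, h3.symm⟩)⟩
  loopless := ⟨by
    rintro v (⟨rfl, h⟩ | ⟨rfl, h⟩ | ⟨a, b, h1, h2, h3⟩)
    · exact hl h
    · exact hl h
    · have : a = b := ι.injective (h1.trans h2.symm)
      exact h3.ne this⟩

theorem sg_transport {V' : Type} {ctr : V} {leaf : V → Prop} {ι : L ↪ V} {N : SimpleGraph L}
    {hl : ¬ leaf ctr} {ctr' : V'} {leaf' : V' → Prop} {ι' : L ↪ V'} {hl' : ¬ leaf' ctr'}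
    (e : V ≃ V') (h1 : e ctr = ctr') (h2 : ∀ v, leaf v ↔ leaf' (e v)) (h3 : ∀ a, e (ι a) = ι' a) :
    Nonempty (Sg ctr leaf ι N hl ≃g Sg ctr' leaf' ι' N hl') := by
  refine ⟨⟨e, ?_⟩⟩
  intro v w
  change ((e v = ctr' ∧ leaf' (e w)) ∨ (e w = ctr' ∧ leaf' (e v)) ∨
    ∃ a b, ι' a = e v ∧ ι' b = e w ∧ N.Adj a b) ↔
    ((v = ctr ∧ leaf w) ∨ (w = ctr ∧ leaf v) ∨ ∃ a b, ι a = v ∧ ι b = w ∧ N.Adj a b)
  simp only [← h1, ← h2, ← h3, e.injective.eq_iff]

theorem sg_inner {ctr : V} {leaf : V → Prop} {ι : L ↪ V} {N N' : SimpleGraph L}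
    {hl : ¬ leaf ctr} (hι : ∀ a, leaf (ι a)) (φ : N ≃g N') :
    Nonempty (Sg ctr leaf ι N hl ≃g Sg ctr leaf ι N' hl) := by
  classical
  set π : Equiv.Perm V := Equiv.Perm.viaEmbedding φ.toEquiv ι with hπ
  have h1 : ∀ a, π (ι a) = ι (φ a) := fun a => Equiv.Perm.viaEmbedding_apply _ _ _
  have h2 : ∀ v, v ∉ Set.range ι → π v = v := fun v hv =>
    Equiv.Perm.viaEmbedding_apply_of_notMem _ _ _ hv
  have h3 : π ctr = ctr := h2 ctr (by
    rintro ⟨a, ha⟩
    exact hl (ha ▸ hι a))
  have h4 : ∀ v, leaf (π v) ↔ leaf v := by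
    intro v
    by_cases hv : v ∈ Set.range ι
    · obtain ⟨a, rfl⟩ := hv
      rw [h1]
      exact ⟨fun _ => hι _, fun _ => hι _⟩
    · rw [h2 v hv]
  refine ⟨⟨π, ?_⟩⟩
  intro v w
  change ((π v = ctr ∧ leaf (π w)) ∨ (π w = ctr ∧ leaf (π v)) ∨
    ∃ a b, ι a = π v ∧ ι b = π w ∧ N'.Adj a b) ↔
    ((v = ctr ∧ leaf w) ∨ (w = ctr ∧ leaf v) ∨ ∃ a b, ι a = v ∧ ι b = w ∧ N.Adj a b)
  have h5 : ∀ v, π v = ctr ↔ v = ctr := by
    intro v
    rw [← h3]
    rw [h3]
    constructor
    · intro h
      exact π.injective (h.trans h3.symm)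
    · rintro rfl
      exact h3
  have h6 : (∃ a b, ι a = π v ∧ ι b = π w ∧ N'.Adj a b) ↔
      ∃ a b, ι a = v ∧ ι b = w ∧ N.Adj a b := by
    constructor
    · rintro ⟨a, b, ha, hb, hab⟩
      refine ⟨φ.symm a, φ.symm b, ?_, ?_, ?_⟩
      · apply π.injective
        rw [h1, RelIso.apply_symm_apply, ha]
      · apply π.injective
        rw [h1, RelIso.apply_symm_apply, hb]
      · exact φ.symm.map_adj_iff.2 hab
    · rintro ⟨a, b, rfl, rfl, hab⟩
      exact ⟨φ a, φ b, (h1 a).symm, (h1 b).symm, φ.map_adj_iff.2 hab⟩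
  rw [h4, h4, h5, h5, h6]

end sg

section star

variable {t h : ℕ} [NeZero t]

/-- half of the differences -/
def DD (h d0 : ℕ) (x : ZMod t) : Prop :=
  (0 < x.val ∧ x.val < h ∧ x.val ≠ h - d0) ∨ x.val = h + d0

theorem dd_neg (ht : t = 2 * h) {d0 : ℕ} (h0 : 0 < d0) (h1 : d0 < h) {x : ZMod t} (hx : x ≠ 0)
    (hx' : x.val ≠ h) : DD h d0 x ↔ ¬ DD h d0 (-x) := by
  have hlt := ZMod.val_lt x
  have hpos : 0 < x.val := by
    rw [Nat.pos_iff_ne_zero]
    intro he
    exact hx ((ZMod.val_eq_zero _).1 he)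
  unfold DD
  rw [ZMod.neg_val, if_neg hx]
  omega

theorem dd_ne {d0 : ℕ} (h0 : 0 < d0) {x : ZMod t} (hx : DD h d0 x) : x.val ≠ h := by
  unfold DD at hx
  omega

/-- the set of classes which get a diametral edge -/
def ww (h : ℕ) (i : ZMod t) : ℕ := if i.val < h then 1 else 0

theorem sum_ww (ht : t = 2 * h) : ∑ i : ZMod t, ww h i = h := by
  unfold ww
  rw [Finset.sum_boole]
  simp only [Nat.cast_id]
  have : (Finset.univ.filter fun i : ZMod t => i.val < h).card = (Finset.range h).card := by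
    refine Finset.card_bij (fun i _ => i.val) ?_ ?_ ?_
    · intro i hi
      rw [Finset.mem_filter] at hi
      exact Finset.mem_range.2 hi.2
    · intro i _ j _ hij
      exact ZMod.val_injective t hij
    · intro k hk
      rw [Finset.mem_range] at hk
      have hk2 : ((k : ZMod t)).val = k := ZMod.val_natCast_of_lt (by omega)
      refine ⟨(k : ZMod t), ?_, hk2⟩
      rw [Finset.mem_filter]
      exact ⟨Finset.mem_univ _, by rw [hk2]; exact hk⟩
  rw [this, Finset.card_range]

/-- the graph on two points with an edge if `p` -/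
def Bg (p : Prop) : SimpleGraph Bool where
  Adj x y := x ≠ y ∧ p
  symm := ⟨fun _ _ h => ⟨h.1.symm, h.2⟩⟩
  loopless := ⟨fun _ h => h.1 rfl⟩

variable {O : Type}

/-- the inner graph -/
def Nn (A : SimpleGraph O) (c : O → O → ZMod t) (h : ℕ) (i : ZMod t) : SimpleGraph (O ⊕ Bool) :=
  jn (Mc A c i) (Bg (i.val < h)) fun _ => False

theorem mat_nn [Fintype O] [DecidableEq O] {A : SimpleGraph O} {c : O → O → ZMod t} (hc : Pc A c) (i : ZMod t) :
    Mat (Nn A c h i) := by
  rintro (a | x) (b | y) (b' | y') h1 h2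
  · rw [mat_mc hc i a b b' h1 h2]
  · exact h2.elim
  · exact h1.elim
  · exact h1.elim
  · exact h1.elim
  · exact h1.elim
  · exact h2.elim
  · have e1 : x ≠ y := h1.1
    have e2 : x ≠ y' := h2.1
    have : y = y' := by
      cases x <;> cases y <;> cases y' <;> simp_all
    rw [this]

theorem card_nn [Fintype O] [DecidableEq O] {A : SimpleGraph O} {c : O → O → ZMod t}
    (hc : Pc A c) (i : ZMod t) :
    (cv (Nn A c h i)).card = (cv (Mc A c i)).card + 2 * ww h i := by
  classical
  have h1 : cv (Nn A c h i) = (cv (Mc A c i)).map Function.Embedding.inl ∪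
      (if i.val < h then (Finset.univ : Finset Bool) else ∅).map Function.Embedding.inr := by
    ext v
    rw [mem_cv, Finset.mem_union, Finset.mem_map, Finset.mem_map]
    rcases v with a | x
    · constructor
      · rintro ⟨b | y, hb⟩
        · exact Or.inl ⟨a, mem_cv.2 ⟨b, hb⟩, rfl⟩
        · exact hb.elim
      · rintro (⟨a', ha', he⟩ | ⟨x, _, hx⟩)
        · obtain rfl : a' = a := Sum.inl_injective he
          obtain ⟨b, hb⟩ := mem_cv.1 ha'
          exact ⟨Sum.inl b, hb⟩
        · cases hx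
    · constructor
      · rintro ⟨b | y, hb⟩
        · exact hb.elim
        · refine Or.inr ⟨x, ?_, rfl⟩
          have hp : i.val < h := hb.2
          rw [if_pos hp]
          exact Finset.mem_univ _
      · rintro (⟨a', _, he⟩ | ⟨x', hx', _⟩)
        · cases he
        · by_cases hp : i.val < h
          · exact ⟨Sum.inr (!x), by cases x <;> decide, hp⟩
          · rw [if_neg hp] at hx'
            exact absurd hx' (Finset.notMem_empty _)
  rw [h1, Finset.card_union_of_disjoint, Finset.card_map, Finset.card_map]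
  · unfold ww
    split_ifs <;> simp
  · rw [Finset.disjoint_left]
    intro v hv hv'
    rw [Finset.mem_map] at hv hv'
    obtain ⟨a, _, ha⟩ := hv
    obtain ⟨x, _, hx⟩ := hv'
    rw [← ha] at hx
    cases hx

/-- leaves of the star with centre `i` -/
def lf (B : SimpleGraph (ZMod t)) (h d0 : ℕ) (i : ZMod t) : O ⊕ ZMod t → Prop
  | Sum.inl _ => True
  | Sum.inr y => B.Adj 0 (y - i) ∧ DD h d0 (y - i)

theorem lf_ctr (B : SimpleGraph (ZMod t)) (h d0 : ℕ) (i : ZMod t) :
    ¬ lf (O := O) B h d0 i (Sum.inr i) := by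
  rintro ⟨h1, _⟩
  rw [sub_self] at h1
  exact h1.ne rfl

/-- position of the special vertices -/
def im (ht : t = 2 * h) (hh : 0 < h) (d0 : ℕ) (i : ZMod t) : O ⊕ Bool ↪ O ⊕ ZMod t where
  toFun
    | Sum.inl o => Sum.inl o
    | Sum.inr b => Sum.inr (i + (d0 : ZMod t) + if b then (h : ZMod t) else 0)
  inj' := by
    have hne : (h : ZMod t) ≠ 0 := by
      intro he
      have := congrArg ZMod.val he
      rw [ZMod.val_natCast_of_lt (by omega), ZMod.val_zero] at this
      omega
    rintro (a | x) (b | y) hxy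
    · cases hxy; rfl
    · cases hxy
    · cases hxy
    · have hxy' := Sum.inr_injective hxy
      cases x <;> cases y
      · rfl
      · exfalso
        simp only [Bool.false_eq_true, if_false, if_true] at hxy'
        exact hne (add_left_cancel hxy').symm
      · exfalso
        simp only [Bool.false_eq_true, if_false, if_true] at hxy'
        exact hne (add_left_cancel hxy')
      · rfl

/-- the factors -/
def Ff (ht : t = 2 * h) (hh : 0 < h) (A : SimpleGraph O) (B : SimpleGraph (ZMod t))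
    (c : O → O → ZMod t) (d0 : ℕ) (i : ZMod t) : SimpleGraph (O ⊕ ZMod t) :=
  Sg (Sum.inr i) (lf B h d0 i) (im ht hh d0 i) (Nn A c h i) (lf_ctr B h d0 i)

theorem cast_add_self (ht : t = 2 * h) : (h : ZMod t) + (h : ZMod t) = 0 := by
  rw [← Nat.cast_add, ← two_mul, ← ht, ZMod.natCast_self]

theorem val_h (ht : t = 2 * h) (hh : 0 < h) : ((h : ZMod t)).val = h :=
  ZMod.val_natCast_of_lt (by omega)

theorem eq_h (ht : t = 2 * h) (hh : 0 < h) {x : ZMod t} : x.val = h ↔ x = (h : ZMod t) := by
  constructor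
  · intro hx
    apply ZMod.val_injective
    rw [hx, val_h ht hh]
  · rintro rfl
    exact val_h ht hh

/-- exactly one of two opposite residues is small -/
theorem small_xor (ht : t = 2 * h) (hh : 0 < h) (x : ZMod t) :
    x.val < h ↔ ¬ (x + (h : ZMod t)).val < h := by
  have hlt := ZMod.val_lt x
  rw [ZMod.val_add, val_h ht hh]
  by_cases hx : x.val < h
  · rw [Nat.mod_eq_of_lt (by omega)]
    omega
  · have : (x.val + h) % t = x.val + h - t := by
      rw [Nat.mod_eq_sub_mod (by omega), Nat.mod_eq_of_lt (by omega)]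
    rw [this]
    omega

theorem ff_ll {ht : t = 2 * h} {hh : 0 < h} {A : SimpleGraph O} {B : SimpleGraph (ZMod t)}
    {c : O → O → ZMod t} {d0 : ℕ} {i : ZMod t} {a b : O} :
    (Ff ht hh A B c d0 i).Adj (Sum.inl a) (Sum.inl b) ↔ (Mc A c i).Adj a b := by
  constructor
  · rintro (⟨h1, _⟩ | ⟨h1, _⟩ | ⟨x, y, hx, hy, hxy⟩)
    · cases h1
    · cases h1
    · rcases x with x | x
      · rcases y with y | y
        · cases hx; cases hy
          exact hxy
        · cases hy
      · cases hx
  · intro hab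
    exact Or.inr (Or.inr ⟨Sum.inl a, Sum.inl b, rfl, rfl, hab⟩)

theorem ff_lr {ht : t = 2 * h} {hh : 0 < h} {A : SimpleGraph O} {B : SimpleGraph (ZMod t)}
    {c : O → O → ZMod t} {d0 : ℕ} {i : ZMod t} {a : O} {y : ZMod t} :
    (Ff ht hh A B c d0 i).Adj (Sum.inl a) (Sum.inr y) ↔ y = i := by
  constructor
  · rintro (⟨h1, _⟩ | ⟨h1, _⟩ | ⟨x, y, hx, hy, hxy⟩)
    · cases h1
    · exact Sum.inr_injective h1
    · rcases x with x | x
      · rcases y with y | y
        · cases hy
        · exact hxy.elim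
      · cases hx
  · rintro rfl
    exact Or.inr (Or.inl ⟨rfl, trivial⟩)

theorem ff_rr {ht : t = 2 * h} {hh : 0 < h} {A : SimpleGraph O} {B : SimpleGraph (ZMod t)}
    {c : O → O → ZMod t} {d0 : ℕ} {i : ZMod t} {x y : ZMod t} :
    (Ff ht hh A B c d0 i).Adj (Sum.inr x) (Sum.inr y) ↔
      (x = i ∧ B.Adj 0 (y - i) ∧ DD h d0 (y - i)) ∨ (y = i ∧ B.Adj 0 (x - i) ∧ DD h d0 (x - i)) ∨
      (i.val < h ∧ ((x = i + (d0 : ZMod t) ∧ y = i + (d0 : ZMod t) + (h : ZMod t)) ∨
        (y = i + (d0 : ZMod t) ∧ x = i + (d0 : ZMod t) + (h : ZMod t)))) := by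
  constructor
  · rintro (⟨h1, h2⟩ | ⟨h1, h2⟩ | ⟨p, q, hx, hy, hxy⟩)
    · exact Or.inl ⟨Sum.inr_injective h1, h2⟩
    · exact Or.inr (Or.inl ⟨Sum.inr_injective h1, h2⟩)
    · rcases p with p | p
      · cases hx
      · rcases q with q | q
        · cases hy
        · have hx' : i + (d0 : ZMod t) + (if p then (h : ZMod t) else 0) = x :=
            Sum.inr_injective hx
          have hy' : i + (d0 : ZMod t) + (if q then (h : ZMod t) else 0) = y :=
            Sum.inr_injective hy
          have hpq : p ≠ q := hxy.1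
          refine Or.inr (Or.inr ⟨hxy.2, ?_⟩)
          cases p <;> cases q
          · exact absurd rfl hpq
          · left
            simp only [Bool.false_eq_true, if_false, add_zero, if_true] at hx' hy'
            exact ⟨hx'.symm, hy'.symm⟩
          · right
            simp only [Bool.false_eq_true, if_false, add_zero, if_true] at hx' hy'
            exact ⟨hy'.symm, hx'.symm⟩
          · exact absurd rfl hpq
  · rintro (⟨rfl, h2⟩ | ⟨rfl, h2⟩ | ⟨hi, h2 | h2⟩)
    · exact Or.inl ⟨rfl, h2⟩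
    · exact Or.inr (Or.inl ⟨rfl, h2⟩)
    · refine Or.inr (Or.inr ⟨Sum.inr false, Sum.inr true, ?_, ?_, ?_⟩)
      · rw [h2.1]
        change Sum.inr _ = Sum.inr _
        simp
      · rw [h2.2]
        change Sum.inr _ = Sum.inr _
        simp
      · exact ⟨by decide, hi⟩
    · refine Or.inr (Or.inr ⟨Sum.inr true, Sum.inr false, ?_, ?_, ?_⟩)
      · rw [h2.2]
        change Sum.inr _ = Sum.inr _
        simp
      · rw [h2.1]
        change Sum.inr _ = Sum.inr _
        simp
      · exact ⟨by decide, hi⟩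

theorem Div.star [Fintype O] [DecidableEq O] (ht : t = 2 * h) {d0 : ℕ} (h0 : 0 < d0) (h1 : d0 < h)
    (h2 : 2 * d0 ≠ h) {A : SimpleGraph O} [DecidableRel A.Adj] {B : SimpleGraph (ZMod t)}
    (hB : ∀ a x y, B.Adj (x + a) (y + a) ↔ B.Adj x y) (hBh : B.Adj 0 (h : ZMod t))
    (hd : B.Adj 0 (d0 : ZMod t)) (hd' : B.Adj 0 ((h + d0 : ℕ) : ZMod t))
    (hO : Fintype.card O ≤ t) {m : ℕ} (hm : ∑ v, A.degree v + t = t * (2 * m)) :
    Div (jn A B fun _ => True) (ZMod t) := by
  classical
  have hh : 0 < h := by omega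
  have hcard : Fintype.card O ≤ Fintype.card (ZMod t) := by rwa [ZMod.card]
  obtain ⟨f⟩ := Function.Embedding.nonempty_of_card_le hcard
  have hc0 : Pc A (fun v w => f v + f w) := by
    refine ⟨fun v w => add_comm _ _, fun v w w' _ _ he => f.injective (add_left_cancel he)⟩
  have hm' : ∑ v, A.degree v + 2 * ∑ i : ZMod t, ww h i = Fintype.card (ZMod t) * (2 * m) := by
    rw [sum_ww ht, ZMod.card, ← hm, ht]
  obtain ⟨c, hc, hcm⟩ := equalise (G := A) (fun i : ZMod t => ww h i)
    (fun i => by change ww h i ≤ 1; unfold ww; split_ifs <;> omega) m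
    (by
      rw [← hm']
      congr 1
      refine Finset.sum_congr rfl fun v _ => ?_
      congr 1
      exact Subsingleton.elim _ _) _ _ hc0 le_rfl
  refine ⟨Ff ht hh A B c d0, ?_, ?_, ?_⟩
  · rintro i (a | x) (b | y) hvw
    · exact (ff_ll.1 hvw).1
    · trivial
    · trivial
    · rw [ff_rr] at hvw
      change B.Adj x y
      rcases hvw with ⟨rfl, h3, _⟩ | ⟨rfl, h3, _⟩ | ⟨_, ⟨rfl, rfl⟩ | ⟨rfl, rfl⟩⟩
      · have := (hB x 0 (y - x)).2 h3
        rwa [zero_add, sub_add_cancel] at this
      · have := (hB y 0 (x - y)).2 h3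
        rw [zero_add, sub_add_cancel] at this
        exact this.symm
      · have := (hB (i + (d0 : ZMod t)) 0 (h : ZMod t)).2 hBh
        rw [zero_add, add_comm (h : ZMod t)] at this
        exact this
      · have := (hB (i + (d0 : ZMod t)) 0 (h : ZMod t)).2 hBh
        rw [zero_add, add_comm (h : ZMod t)] at this
        exact this.symm
  · rintro (a | x) (b | y) hvw
    · refine ⟨c a b, ff_ll.2 ((mc_adj hc).2 ⟨hvw, rfl⟩), ?_⟩
      intro j hj
      exact ((mc_adj hc).1 (ff_ll.1 hj)).2.symm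
    · exact ⟨y, ff_lr.2 rfl, fun j hj => (ff_lr.1 hj).symm⟩
    · exact ⟨x, (ff_lr.2 rfl).symm, fun j hj => (ff_lr.1 hj.symm).symm⟩
    · have hvw' : B.Adj x y := hvw
      have hxy : B.Adj 0 (y - x) := by
        have := (hB x 0 (y - x)).1
        rw [zero_add, sub_add_cancel] at this
        exact this hvw'
      have hyx : B.Adj 0 (x - y) := by
        have := (hB y 0 (x - y)).1
        rw [zero_add, sub_add_cancel] at this
        exact this hvw'.symm
      have hne : y - x ≠ 0 := by
        intro he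
        rw [he] at hxy
        exact hxy.ne rfl
      have hneg : x - y = -(y - x) := by ring
      have hhh := cast_add_self ht
      by_cases hz : (y - x).val = h
      · -- diametral edge
        have hz1 : y - x = (h : ZMod t) := (eq_h ht hh).1 hz
        have hz2 : x - y = (h : ZMod t) := by
          rw [hneg, hz1]
          linear_combination -hhh
        have hnd1 : ¬ DD h d0 (y - x) := fun hd => dd_ne h0 hd hz
        have hnd2 : ¬ DD h d0 (x - y) := fun hd => dd_ne h0 hd (by rw [hz2]; exact val_h ht hh)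
        have key : ∀ i, (Ff ht hh A B c d0 i).Adj (Sum.inr x) (Sum.inr y) ↔
            i.val < h ∧ (i = x - (d0 : ZMod t) ∨ i = x - (d0 : ZMod t) + (h : ZMod t)) := by
          intro i
          rw [ff_rr]
          constructor
          · rintro (⟨rfl, _, h3⟩ | ⟨rfl, _, h3⟩ | ⟨hi, ⟨h3, _⟩ | ⟨h3, _⟩⟩)
            · exact absurd h3 hnd1
            · exact absurd h3 hnd2
            · exact ⟨hi, Or.inl (by rw [h3]; ring)⟩
            · refine ⟨hi, Or.inr ?_⟩
              linear_combination -h3 + hz1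
          · rintro ⟨hi, rfl | rfl⟩
            · refine Or.inr (Or.inr ⟨hi, Or.inl ⟨by ring, ?_⟩⟩)
              linear_combination hz1
            · refine Or.inr (Or.inr ⟨hi, Or.inr ⟨?_, ?_⟩⟩)
              · linear_combination hz1
              · linear_combination -hhh
        have hxor := small_xor ht hh (x - (d0 : ZMod t))
        by_cases hs : (x - (d0 : ZMod t)).val < h
        · refine ⟨x - (d0 : ZMod t), (key _).2 ⟨hs, Or.inl rfl⟩, ?_⟩
          intro j hj
          obtain ⟨hj1, hj2 | hj2⟩ := (key j).1 hj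
          · exact hj2
          · rw [hj2] at hj1
            exact absurd hj1 (hxor.1 hs)
        · have hs2 : (x - (d0 : ZMod t) + (h : ZMod t)).val < h := by
            by_contra hcon
            exact hs (hxor.2 hcon)
          refine ⟨x - (d0 : ZMod t) + (h : ZMod t), (key _).2 ⟨hs2, Or.inr rfl⟩, ?_⟩
          intro j hj
          obtain ⟨hj1, hj2 | hj2⟩ := (key j).1 hj
          · rw [hj2] at hj1
            exact absurd hj1 hs
          · exact hj2
      · -- other edges
        have hdd := dd_neg ht h0 h1 hne hz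
        rw [← hneg] at hdd
        have hz' : ∀ i, ¬ (i.val < h ∧ ((x = i + (d0 : ZMod t) ∧
            y = i + (d0 : ZMod t) + (h : ZMod t)) ∨
            (y = i + (d0 : ZMod t) ∧ x = i + (d0 : ZMod t) + (h : ZMod t)))) := by
          rintro i ⟨_, ⟨rfl, rfl⟩ | ⟨rfl, rfl⟩⟩
          · exact hz ((eq_h ht hh).2 (by ring))
          · refine hz ((eq_h ht hh).2 ?_)
            linear_combination -hhh
        by_cases hD : DD h d0 (y - x)
        · refine ⟨x, ff_rr.2 (Or.inl ⟨rfl, hxy, hD⟩), ?_⟩
          intro j hj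
          rcases ff_rr.1 hj with ⟨h3, _⟩ | ⟨rfl, _, h3⟩ | h3
          · exact h3.symm
          · exact absurd h3 (hdd.1 hD)
          · exact absurd h3 (hz' j)
        · have hD' : DD h d0 (x - y) := by
            by_contra hcon
            exact hD (hdd.2 hcon)
          refine ⟨y, ff_rr.2 (Or.inr (Or.inl ⟨rfl, hyx, hD'⟩)), ?_⟩
          intro j hj
          rcases ff_rr.1 hj with ⟨rfl, _, h3⟩ | ⟨h3, _⟩ | h3
          · exact absurd h3 hD
          · exact h3.symm
          · exact absurd h3 (hz' j)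
  · intro i j
    have hcards : (cv (Nn A c h i)).card = (cv (Nn A c h j)).card := by
      rw [card_nn hc, card_nn hc]
      exact (hcm i).trans (hcm j).symm
    obtain ⟨φ⟩ := iso_of_card (mat_nn (h := h) hc i) (mat_nn (h := h) hc j) hcards
    have hleaf : ∀ a, lf B h d0 i (im (O := O) ht hh d0 i a) := by
      rintro (a | b)
      · trivial
      · change B.Adj 0 (i + (d0 : ZMod t) + (if b then (h : ZMod t) else 0) - i) ∧
          DD h d0 (i + (d0 : ZMod t) + (if b then (h : ZMod t) else 0) - i)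
        cases b
        · have e1 : i + (d0 : ZMod t) + (if false = true then (h : ZMod t) else 0) - i =
              (d0 : ZMod t) := by simp
          rw [e1]
          refine ⟨hd, Or.inl ?_⟩
          rw [ZMod.val_natCast_of_lt (by omega)]
          omega
        · have e1 : i + (d0 : ZMod t) + (if true = true then (h : ZMod t) else 0) - i =
              ((h + d0 : ℕ) : ZMod t) := by
            rw [if_pos rfl]; push_cast; ring
          rw [e1]
          refine ⟨hd', Or.inr ?_⟩
          rw [ZMod.val_natCast_of_lt (by omega)]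
    obtain ⟨e1⟩ := sg_inner (hl := lf_ctr B h d0 i) hleaf φ
    obtain ⟨e2⟩ := sg_transport (N := Nn A c h j) (hl := lf_ctr B h d0 i)
      (hl' := lf_ctr B h d0 j) (ι := im ht hh d0 i) (ι' := im ht hh d0 j)
      (Equiv.sumCongr (Equiv.refl O) (Equiv.addRight (j - i)))
      (by
        change Sum.inr (i + (j - i)) = Sum.inr j
        rw [add_sub_cancel])
      (by
        rintro (a | y)
        · exact Iff.rfl
        · change _ ↔ B.Adj 0 (y + (j - i) - j) ∧ DD h d0 (y + (j - i) - j)
          have : y + (j - i) - j = y - i := by ring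
          rw [this]
          exact Iff.rfl)
      (by
        rintro (a | b)
        · rfl
        · change Sum.inr _ = Sum.inr _
          congr 1
          change i + (d0 : ZMod t) + (if b then (h : ZMod t) else 0) + (j - i) =
            j + (d0 : ZMod t) + (if b then (h : ZMod t) else 0)
          ring)
    exact ⟨e1.trans e2⟩

end star

end Pool.Agent.KS6_69.IF
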